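import Mathlib
import Pool.Agent.H.MP_9105af_an.B

set_option autoImplicit false

namespace Pool.Agent.Results.MP_9105af_an.Counter

open Filter Topology BoundedContinuousFunction

section Defs
variable {H : Type} [NormedAddCommGroup H] [InnerProductSpace ℂ H] [CompleteSpace H]

/-- Trace class: the diagonal of the modulus of T is summable in some orthonormal basis. -/
def TraceClass (T : H →L[ℂ] H) : Prop :=
  ∃ (ι : Type) (b : HilbertBasis ι ℂ H),
    Summable fun i => inner ℂ (b i) (CFC.sqrt (star T * T) (b i))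

/-- Singular number mu_(k+1): distance to the operators of rank at most k. -/
noncomputable def sing (T : H →L[ℂ] H) (k : ℕ) : ℝ :=
  sInf {t | ∃ F : H →L[ℂ] H, LinearMap.rank (F : H →ₗ[ℂ] H) ≤ k ∧ t = ‖T - F‖}

/-- Logarithmic means of the singular numbers, index N standing for N+1 terms. -/
noncomputable def logMean (T : H →L[ℂ] H) (N : ℕ) : ℝ :=
  (∑ k ∈ Finset.range (N + 1), sing T k) / Real.log ((N : ℝ) + 2)

/-- Generalised limit on bounded real sequences. -/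
def GenLimit (ω : (ℕ →ᵇ ℝ) →ₗ[ℝ] ℝ) : Prop :=
  (∀ s, 0 ≤ s → 0 ≤ ω s) ∧ ω 1 = 1 ∧ ∀ s : ℕ →ᵇ ℝ, Tendsto s atTop (𝓝 0) → ω s = 0

/-- T is a positive compact operator with bounded logarithmic means on which ω takes the value t. -/
def HasTr (ω : (ℕ →ᵇ ℝ) →ₗ[ℝ] ℝ) (T : H →L[ℂ] H) (t : ℝ) : Prop :=
  0 ≤ T ∧ IsCompactOperator T ∧ ∃ s : ℕ →ᵇ ℝ, (∀ N, s N = logMean T N) ∧ ω s = t

/-- a preserves the domain of D and the commutator of D with a is bounded there. -/
def BddComm (D : H →ₗ.[ℂ] H) (a : H →L[ℂ] H) : Prop :=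
  ∃ (h : ∀ x : D.domain, a x ∈ D.domain) (C : ℝ),
    ∀ x : D.domain, ‖D ⟨a x, h x⟩ - a (D x)‖ ≤ C * ‖(x : H)‖

/-- y lies in the domain of D D and (1 + D D) y = x. -/
def Solves (D : H →ₗ.[ℂ] H) (y x : H) : Prop :=
  ∃ (h₁ : y ∈ D.domain) (h₂ : D ⟨y, h₁⟩ ∈ D.domain), y + D ⟨D ⟨y, h₁⟩, h₂⟩ = x

/-- Spectral triple (A, H, D), with R the positive square root of the inverse of 1 + D D. -/
def SpectralTriple (A : StarSubalgebra ℂ (H →L[ℂ] H)) (D : H →ₗ.[ℂ] H) (R : H →L[ℂ] H) : Prop :=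
  (∃ G : Set (H →L[ℂ] H), G.Countable ∧ A = StarAlgebra.adjoin ℂ G) ∧
  IsSelfAdjoint D ∧ (∀ a ∈ A, BddComm D a) ∧
  0 ≤ R ∧ (∀ x : H, Solves D (R (R x)) x) ∧ IsCompactOperator R

/-- The bicommutant. -/
def Bicomm (A : StarSubalgebra ℂ (H →L[ℂ] H)) : Set (H →L[ℂ] H) :=
  Set.centralizer (Set.centralizer (A : Set (H →L[ℂ] H)))

/-- M contains no nonzero operator of finite rank. -/
def NoFiniteRank (M : Set (H →L[ℂ] H)) : Prop :=
  ∀ S ∈ M, FiniteDimensional ℂ (LinearMap.range (S : H →ₗ[ℂ] H)) → S = 0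

/-- Pairwise orthogonal projections in M with strong sum the identity. -/
def Resolution (M : Set (H →L[ℂ] H)) (P : ℕ → H →L[ℂ] H) : Prop :=
  (∀ i, P i ∈ M) ∧ (∀ i, IsStarProjection (P i)) ∧ (∀ i j, i ≠ j → P i * P j = 0) ∧
    ∀ x, HasSum (fun i => P i x) x

end Defs

open Pool.Agent.H.MP_9105af_an in
theorem result :
    ∃ (H : Type) (_ : NormedAddCommGroup H) (_ : InnerProductSpace ℂ H) (_ : CompleteSpace H)
      (A : StarSubalgebra ℂ (H →L[ℂ] H)) (D : H →ₗ.[ℂ] H) (R : H →L[ℂ] H),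
      TopologicalSpace.SeparableSpace H ∧ SpectralTriple A D R ∧
      IsLeast {n : ℝ | ∀ p : ℝ, n < p → TraceClass (R ^ p)} 1 ∧
      BddAbove (Set.range (logMean R)) ∧ NoFiniteRank (Bicomm A) ∧
      ∃ P : ℕ → H →L[ℂ] H, Resolution (Bicomm A) P ∧
        (∀ i, Tendsto (logMean (P i * R)) atTop (𝓝 0)) ∧ Tendsto (logMean R) atTop (𝓝 1) ∧
        ∀ ω, GenLimit ω → (∀ i, HasTr ω (P i * R) 0) ∧ HasTr ω R 1 := by
  obtain ⟨H, _, _, _, ⟨b⟩⟩ : ∃ (H : Type) (_ : NormedAddCommGroup H) (_ : InnerProductSpace ℂ H)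
      (_ : CompleteSpace H), Nonempty (HilbertBasis ℕ ℂ H) :=
    ⟨lp (fun _ : ℕ => ℂ) 2, inferInstance, inferInstance, inferInstance, ⟨default⟩⟩
  have hsep : TopologicalSpace.SeparableSpace H := by
    rw [← TopologicalSpace.isSeparable_univ_iff]
    have h := ((Set.countable_range b).isSeparable.span (R := ℂ)).closure
    rwa [← Submodule.topologicalClosure_coe, b.dense_span] at h
  have hind : ∀ i k, 0 ≤ ind i k ∧ ind i k ≤ 1 := fun i k => by
    unfold ind; split_ifs <;> norm_num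
  obtain ⟨R, -, hR⟩ := exists_diag b (fun k => (r k : ℂ)) 1 zero_le_one fun k => by
    rw [Complex.norm_real, Real.norm_eq_abs, abs_of_pos (r_pos k)]; exact r_le k
  obtain ⟨V, -, hV⟩ := exists_diag b (fun k => (v k : ℂ)) 1 zero_le_one v_le
  have hPe := fun i => exists_diag b (fun k => (ind i k : ℂ)) 1 zero_le_one fun k => by
    rw [Complex.norm_real, Real.norm_eq_abs, abs_of_nonneg (hind i k).1]; exact (hind i k).2
  choose P _ hP using hPe
  obtain ⟨D, hD, hdom, happ⟩ := exists_D hR hV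
  have hRA := comm_A hP fun i => (hP i).comm hR
  have hVA := comm_A hP fun i => (hP i).comm hV
  have hRc : IsCompactOperator R := hR.compact fun k => by
    rw [Complex.norm_real, Real.norm_eq_abs, abs_of_pos (r_pos k)]; exact le_rfl
  have h1 : Tendsto (logMean R) atTop (𝓝 1) := by
    refine lim_one.congr fun N => ?_
    unfold logMean
    congr 1
    exact Finset.sum_congr rfl fun k _ => (sn_R hR k).symm
  have h0 : ∀ i, Tendsto (logMean (P i * R)) atTop (𝓝 0) := fun i =>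
    lim_zero _ (sn_nonneg _) (sn_P i ((hP i).mul hR))
  have hb : ∀ (f : ℕ → ℝ) (t : ℝ), Tendsto f atTop (𝓝 t) → ∀ ω, GenLimit ω →
      ∃ s : ℕ →ᵇ ℝ, (∀ N, s N = f N) ∧ ω s = t := by
    intro f t hf ω hω
    obtain ⟨C, hC⟩ := hf.norm.bddAbove_range
    let s : ℕ →ᵇ ℝ := ofNormedAddCommGroupDiscrete f C fun n => hC ⟨n, rfl⟩
    refine ⟨s, fun _ => rfl, ?_⟩
    have h2 := hω.2.2 (s - t • 1) (by
      have := hf.sub_const t
      rw [sub_self] at this
      refine this.congr fun n => ?_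
      simp [s])
    rw [map_sub, map_smul, hω.2.1, smul_eq_mul, mul_one, sub_eq_zero] at h2
    exact h2
  refine ⟨H, inferInstance, inferInstance, inferInstance,
    StarAlgebra.adjoin ℂ (Set.range P), D, R, hsep, ⟨⟨_, Set.countable_range P, rfl⟩, hD, ?_,
    R_nonneg hR, ?_, hRc⟩, ⟨fun p hp => ⟨ℕ, b, trace_summable _ (trace_rpow hR p hp)⟩, ?_⟩,
    h1.bddAbove_range, fun S hS hf => no_finite hP hS hf, P, ⟨fun i => ?_, fun i => ?_,
    fun i j hij => ?_, P_sum hP⟩, h0, h1, fun ω hω => ⟨fun i => ⟨?_, ?_, hb _ _ (h0 i) ω hω⟩,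
      R_nonneg hR, hRc, hb _ _ h1 ω hω⟩⟩
  · intro a ha
    have e1 : ∀ y, a (R y) = R (a y) := fun y => by
      rw [← mul_apply_eq_comp, hRA a ha, mul_apply_eq_comp]
    have e2 : ∀ y, a (V y) = V (a y) := fun y => by
      rw [← mul_apply_eq_comp, hVA a ha, mul_apply_eq_comp]
    refine ⟨fun x => ?_, 0, fun x => ?_⟩
    · obtain ⟨y, hy⟩ := (hdom _).1 x.2
      exact (hdom _).2 ⟨a y, by rw [← hy, e1]⟩
    · obtain ⟨x, hx⟩ := x
      obtain ⟨y, rfl⟩ := (hdom _).1 hx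
      simp only [e1, happ, e2, sub_self, norm_zero, zero_mul, le_refl]
  · intro x
    have e1 : V (R x) = R (V x) := by
      rw [← mul_apply_eq_comp, hV.comm hR, mul_apply_eq_comp]
    refine ⟨(hdom _).2 ⟨_, rfl⟩, (hdom _).2 ⟨V x, by rw [happ, e1]⟩, ?_⟩
    simp only [happ, e1]
    refine ext_b b fun k => ?_
    rw [inner_add_right, hR, hR, hV, hV]
    linear_combination inner ℂ (b k) x * rvC k
  · intro n hn
    by_contra h
    obtain ⟨ι, c, hc⟩ := hn 1 (not_le.1 h)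
    rw [CFC.rpow_one R (R_nonneg hR), hR.sa.star_eq, CFC.sqrt_mul_self R (R_nonneg hR)] at hc
    exact not_trace hR c hc
  · exact Set.subset_centralizer_centralizer (StarAlgebra.subset_adjoin ℂ _ ⟨i, rfl⟩)
  · refine ⟨((hP i).mul (hP i)).unique (hP i) fun k => ?_, (hP i).sa⟩
    unfold ind; split_ifs <;> simp
  · refine ((hP i).mul (hP j)).unique (d := fun _ => 0) (fun x k => by simp) fun k => ?_
    unfold ind
    split_ifs with h2 h3
    · exact absurd (h2.symm.trans h3) hij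
    all_goals simp
  · have : IsDiag b (P i * R) fun k => ((ind i k * r k : ℝ) : ℂ) := by
      simpa only [Complex.ofReal_mul] using (hP i).mul hR
    exact this.nonneg (fun k => mul_nonneg (hind i k).1 (r_pos k).le)
      fun k => mul_le_one₀ (hind i k).2 (r_pos k).le (r_le k)
  · exact hRc.clm_comp (P i)

end Pool.Agent.Results.MP_9105af_an.Counter
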